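import Pool.Agent.Helper63.GW.StA
import Pool.Agent.Helper58.MR.VC5

/-! Project GW (MP_b454d1), module CSV. -/

set_option autoImplicit false

namespace Pool.Agent.Helper26.GW

open Finset
open Pool.MR
open Pool.Agent.Helper63.GW
open Pool.Agent.Helper23.GK (cs)

/-- second difference test for the shifted logarithm: all `|y| ≥ M`. -/
theorem sum_e_log_two_shift (M : ℝ) (hM : 1 ≤ M) (y : ℝ) (hy : M ≤ |y|) (θ : ℝ)
    (hθ0 : 0 ≤ θ) (hθ1 : θ ≤ 1) (m0 m1 : ℕ) (hm0 : M ≤ m0) (hm1 : (m1 : ℝ) ≤ 10 * M) :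
    ‖∑ m ∈ Ico m0 m1, e (y * Real.log (m + θ) / (2 * Real.pi))‖ ≤ 100000 * Real.sqrt |y| := by
  have hpi := Real.pi_pos
  have hpi3 := Real.pi_gt_three
  have hpi4 := Real.pi_lt_four
  have hMpos : 0 < M := by linarith
  have hypos : 0 < |y| := by linarith
  rcases Nat.lt_or_ge m0 m1 with hlt | hge
  swap
  · rw [Ico_eq_empty (by omega)]; simp
  have htriv : ‖∑ m ∈ Ico m0 m1, e (y * Real.log (m + θ) / (2 * Real.pi))‖ ≤ 10 * M := by
    refine (norm_sum_le _ _).trans ?_
    simp only [norm_e, sum_const, nsmul_eq_mul, mul_one, Nat.card_Ico]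
    refine le_trans ?_ hm1
    exact_mod_cast Nat.sub_le _ _
  rcases le_or_gt (M ^ 2) |y| with hbig | hsmall
  · have : M ≤ Real.sqrt |y| := Real.le_sqrt_of_sq_le hbig
    have h0 : 0 ≤ Real.sqrt |y| := Real.sqrt_nonneg _
    linarith
  have hred : ‖∑ m ∈ Ico m0 m1, e (y * Real.log (m + θ) / (2 * Real.pi))‖
      = ‖∑ n ∈ range (m1 - m0),
          e (-(|y| / (2 * Real.pi)) * Real.log ((m0 : ℝ) + n + θ))‖ := by
    rw [Finset.sum_Ico_eq_sum_range]
    rcases abs_choice y with hy | hy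
    · rw [hy, ← norm_sum_e_neg]
      congr 1; apply sum_congr rfl; intro n _; congr 1; push_cast; ring
    · rw [hy]
      congr 1; apply sum_congr rfl; intro n _; congr 1; push_cast; ring
  rw [hred]
  set a : ℕ → ℝ := fun n => -(|y| / (2 * Real.pi)) * Real.log ((m0 : ℝ) + n + θ) with ha
  set lam : ℝ := |y| / (1352 * M ^ 2) with hlam
  have hlpos : 0 < lam := by positivity
  have hsd := second_diff a (m1 - m0) lam 1352 hlpos (by
    intro n hn
    have hn0 : (0 : ℝ) ≤ n := by positivity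
    have hx1 : M ≤ (m0 : ℝ) + n + θ := by linarith
    have hx2 : (m0 : ℝ) + n + θ ≤ 11 * M := by
      have h1 : ((m0 + n : ℕ) : ℝ) ≤ m1 := by exact_mod_cast (show m0 + n ≤ m1 by omega)
      push_cast at h1
      linarith
    have hxpos : (0 : ℝ) < (m0 : ℝ) + n + θ := by linarith
    have hb := fwdDiff_log 1 ((m0 : ℝ) + n + θ) hxpos
    simp only [Function.iterate_succ, Function.iterate_zero, Function.comp, id_eq, fwdDiff,
      pow_one, Nat.factorial_one, Nat.cast_one, one_mul] at hb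
    norm_num at hb
    have heq : a (n + 2) - a (n + 1) - (a (n + 1) - a n)
        = |y| / (2 * Real.pi) * (-(Real.log (((m0 : ℝ) + n + θ) + 1 + 1)
          - Real.log (((m0 : ℝ) + n + θ) + 1)
          - (Real.log (((m0 : ℝ) + n + θ) + 1) - Real.log ((m0 : ℝ) + n + θ)))) := by
      simp only [ha]
      push_cast
      rw [show (m0 : ℝ) + (n + 2) + θ = (m0 : ℝ) + n + θ + 1 + 1 by ring,
        show (m0 : ℝ) + (n + 1) + θ = (m0 : ℝ) + n + θ + 1 by ring]
      ring
    rw [heq]
    constructor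
    · have h1 : lam ≤ |y| / (2 * Real.pi) * (1 / (13 * M) ^ 2) := by
        rw [hlam, div_mul_div_comm, mul_one]
        apply div_le_div_of_nonneg_left hypos.le (by positivity)
        nlinarith [sq_nonneg M, mul_pos hMpos hMpos]
      refine h1.trans ?_
      apply mul_le_mul_of_nonneg_left _ (by positivity)
      have h2 : 1 / (13 * M) ^ 2 ≤ (((m0 : ℝ) + n + θ + 2) ^ 2)⁻¹ := by
        rw [← one_div]
        apply one_div_le_one_div_of_le (by positivity)
        apply pow_le_pow_left₀ (by positivity)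
        linarith
      linarith [hb.1]
    · have h1 : |y| / (2 * Real.pi) * (1 / M ^ 2) ≤ 1352 * lam := by
        rw [hlam, div_mul_div_comm, mul_one]
        rw [show 1352 * (|y| / (1352 * M ^ 2)) = |y| / M ^ 2 by field_simp]
        apply div_le_div_of_nonneg_left hypos.le (by positivity)
        nlinarith [sq_nonneg M, mul_pos hMpos hMpos]
      refine le_trans ?_ h1
      apply mul_le_mul_of_nonneg_left _ (by positivity)
      have h2 : (((m0 : ℝ) + n + θ) ^ 2)⁻¹ ≤ 1 / M ^ 2 := by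
        rw [← one_div]
        apply one_div_le_one_div_of_le (by positivity)
        exact pow_le_pow_left₀ (by positivity) hx1 _
      linarith [hb.2])
  refine hsd.trans ?_
  have hs : Real.sqrt lam = Real.sqrt |y| / (Real.sqrt 1352 * M) := by
    rw [hlam, Real.sqrt_div hypos.le, Real.sqrt_mul (by norm_num), Real.sqrt_sq hMpos.le]
  set r := Real.sqrt |y| with hr
  have hrpos : 0 < r := Real.sqrt_pos.2 hypos
  have hrr : r * r = |y| := Real.mul_self_sqrt hypos.le
  have hs34 : Real.sqrt 1352 ≤ 37 := by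
    rw [Real.sqrt_le_left (by norm_num)]; norm_num
  have hs0 : 0 < Real.sqrt 1352 := by positivity
  have hrM : r ≤ M := by
    rw [hr]; exact Real.sqrt_le_iff.2 ⟨hMpos.le, hsmall.le⟩
  have hlen : ((m1 - m0 : ℕ) : ℝ) ≤ 10 * M := by
    refine le_trans ?_ hm1
    exact_mod_cast Nat.sub_le _ _
  have h1 : 1352 * lam * ((m1 - m0 : ℕ) : ℝ) + 2 ≤ 12 * |y| / M := by
    have e1 : 1352 * lam = |y| / M ^ 2 := by rw [hlam]; field_simp
    rw [e1]
    have e2 : |y| / M ^ 2 * ((m1 - m0 : ℕ) : ℝ) ≤ |y| / M ^ 2 * (10 * M) :=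
      mul_le_mul_of_nonneg_left hlen (by positivity)
    have e3 : |y| / M ^ 2 * (10 * M) = 10 * |y| / M := by field_simp
    have e4 : 2 ≤ 2 * |y| / M := by rw [le_div_iff₀ hMpos]; linarith
    have e5 : 12 * |y| / M = 10 * |y| / M + 2 * |y| / M := by ring
    linarith
  have h2 : 5 / Real.sqrt lam + 1 ≤ 186 * M / r := by
    rw [hs]
    have e1 : 5 / (r / (Real.sqrt 1352 * M)) = 5 * Real.sqrt 1352 * M / r := by field_simp
    rw [e1]
    have e2 : 5 * Real.sqrt 1352 * M / r ≤ 185 * M / r := by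
      apply div_le_div_of_nonneg_right _ hrpos.le
      nlinarith
    have e3 : 1 ≤ M / r := by rw [le_div_iff₀ hrpos]; linarith
    have e4 : 186 * M / r = 185 * M / r + M / r := by ring
    linarith
  calc (1352 * lam * ((m1 - m0 : ℕ) : ℝ) + 2) * (5 / Real.sqrt lam + 1)
      ≤ (12 * |y| / M) * (186 * M / r) := mul_le_mul h1 h2 (by positivity) (by positivity)
    _ = 2232 * r := by rw [← hrr]; field_simp; norm_num
    _ ≤ 100000 * r := by nlinarith

/-- CSV -/
theorem hCSV : StCsv := by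
  refine ⟨100000, by norm_num, ?_⟩
  intro N N' t θ hN hNN hN' hθ0 hθ1 ht
  have hpi := Real.pi_pos
  have hN1 : (1 : ℝ) ≤ N := by exact_mod_cast hN
  have hm1 : ((N' + 1 : ℕ) : ℝ) ≤ 10 * N := by
    have h : (N' : ℝ) ≤ 8 * N := by exact_mod_cast hN'
    push_cast; linarith
  have hm0 : (N : ℝ) ≤ ((N + 1 : ℕ) : ℝ) := by push_cast; linarith
  have hsum : ‖∑ n ∈ Ioc N N', cs t θ n‖ =
      ‖∑ m ∈ Ico (N + 1) (N' + 1), e (t * Real.log (m + θ) / (2 * Real.pi))‖ := by
    have h1 : Ioc N N' = Ico (N + 1) (N' + 1) := by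
      ext x; simp only [mem_Ioc, mem_Ico]; omega
    rw [h1, ← norm_sum_e_neg]
    congr 1
    apply sum_congr rfl
    intro m _
    unfold cs e
    congr 2
    field_simp
  have ht0 : t ≠ 0 := by
    intro h
    rw [h, abs_zero] at ht
    linarith
  rw [hsum]
  constructor
  · intro hle
    have h := sum_e_log_kl_shift N hN1 t ht0 hle θ hθ0 hθ1 (N + 1) (N' + 1) hm0 hm1
    refine h.trans ?_
    apply div_le_div_of_nonneg_right _ (abs_nonneg t)
    nlinarith
  · intro hle
    exact sum_e_log_two_shift N hN1 t hle θ hθ0 hθ1 (N + 1) (N' + 1) hm0 hm1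

end Pool.Agent.Helper26.GW
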