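import Pool.Agent.Helper63.GW.StB

/-! Project GW (MP_b454d1), module MWL. -/

set_option autoImplicit false

namespace Pool.Agent.Helper26.GW

open Finset MeasureTheory
open Pool.Agent.Helper63.GW

/-- logarithms against powers -/
theorem log_pow_le (M : ℝ) (m : ℕ) (a : ℝ) (ha : 0 < a) :
    ∃ X0 : ℕ, ∀ X : ℕ, X0 ≤ X → M * Real.log X ^ m ≤ (X : ℝ) ^ a := by
  have h := isLittleO_log_rpow_rpow_atTop (m : ℝ) ha
  have h2 := h.bound (show (0 : ℝ) < 1 / (|M| + 1) by positivity)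
  have h3 := (tendsto_natCast_atTop_atTop (R := ℝ)).eventually h2
  have h4 := (tendsto_natCast_atTop_atTop (R := ℝ)).eventually
    (Filter.eventually_ge_atTop (1 : ℝ))
  obtain ⟨X0, hX0⟩ := Filter.eventually_atTop.1 (h3.and h4)
  refine ⟨X0, fun X hX => ?_⟩
  obtain ⟨h5, h6⟩ := hX0 X hX
  have hlog : 0 ≤ Real.log X := Real.log_nonneg h6
  have hp : 0 ≤ (X : ℝ) ^ a := by positivity
  rw [Real.rpow_natCast, Real.norm_of_nonneg (by positivity), Real.norm_of_nonneg hp] at h5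
  have h7 : 0 ≤ Real.log X ^ m := by positivity
  have h8 : (|M| + 1) * Real.log X ^ m ≤ (X : ℝ) ^ a := by
    have h9 := mul_le_mul_of_nonneg_left h5 (show (0 : ℝ) ≤ |M| + 1 by positivity)
    have h10 : (|M| + 1) * (1 / (|M| + 1) * (X : ℝ) ^ a) = (X : ℝ) ^ a := by field_simp
    linarith
  have h11 : M ≤ |M| := le_abs_self M
  nlinarith

theorem log_ge (M : ℝ) : ∃ X0 : ℕ, ∀ X : ℕ, X0 ≤ X → M ≤ Real.log X := by
  have h := (Real.tendsto_log_atTop.comp (tendsto_natCast_atTop_atTop (R := ℝ))).eventually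
    (Filter.eventually_ge_atTop M)
  obtain ⟨X0, hX0⟩ := Filter.eventually_atTop.1 h
  exact ⟨X0, hX0⟩

theorem sq3 (a b c : ℝ) : (a + b + c) ^ 2 ≤ 3 * (a ^ 2 + b ^ 2 + c ^ 2) := by
  nlinarith [sq_nonneg (a - b), sq_nonneg (a - c), sq_nonneg (b - c)]

theorem gauss_int (c W : ℝ) (hW : 0 < W) :
    Integrable (fun s : ℝ => Real.exp (-((s - c) / W) ^ 2)) ∧
    ∫ s : ℝ, Real.exp (-((s - c) / W) ^ 2) ≤ 2 * W := by
  have hb : 0 < 1 / W ^ 2 := by positivity
  have he : (fun s : ℝ => Real.exp (-((s - c) / W) ^ 2)) =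
      fun s : ℝ => (fun x : ℝ => Real.exp (-(1 / W ^ 2) * x ^ 2)) (s - c) := by
    funext s
    congr 1
    field_simp
  rw [he]
  refine ⟨(integrable_exp_neg_mul_sq hb).comp_sub_right c, ?_⟩
  rw [integral_sub_right_eq_self (fun x : ℝ => Real.exp (-(1 / W ^ 2) * x ^ 2)) c,
    integral_gaussian]
  have h1 : Real.pi / (1 / W ^ 2) ≤ (2 * W) ^ 2 := by
    have := Real.pi_le_four
    rw [div_div_eq_mul_div, div_one]
    nlinarith [sq_nonneg W]
  calc Real.sqrt (Real.pi / (1 / W ^ 2)) ≤ Real.sqrt ((2 * W) ^ 2) := Real.sqrt_le_sqrt h1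
    _ = 2 * W := Real.sqrt_sq (by positivity)

theorem win (G : ℝ → ℝ) (c W α β : ℝ) (hW : 0 < W) (hα : 0 ≤ α) (hβ : 0 ≤ β)
    (hG0 : ∀ s, 0 ≤ G s)
    (h : ∀ s, G s ≤ α * (1 + s ^ 2)⁻¹ + β * Real.exp (-((s - c) / W) ^ 2)) :
    ∫ s : ℝ, G s ≤ 4 * α + 2 * W * β := by
  obtain ⟨h1, h2⟩ := gauss_int c W hW
  have h3 : Integrable (fun s : ℝ => α * (1 + s ^ 2)⁻¹ + β * Real.exp (-((s - c) / W) ^ 2)) :=
    (integrable_inv_one_add_sq.const_mul α).add (h1.const_mul β)
  refine (integral_mono_of_nonneg (Filter.Eventually.of_forall hG0) h3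
    (Filter.Eventually.of_forall h)).trans ?_
  rw [integral_add (integrable_inv_one_add_sq.const_mul α) (h1.const_mul β),
    integral_const_mul, integral_const_mul, integral_univ_inv_one_add_sq]
  have h4 := mul_le_mul_of_nonneg_left h2 hβ
  have h5 := mul_le_mul_of_nonneg_left Real.pi_le_four hα
  linarith

/-- MWL -/
theorem hMWL : StSmw → StBks → StBkb → StMwl := by
  rintro ⟨C₁, hC₁, hS⟩ ⟨C₂, hC₂, hK⟩ ⟨-, -, hcont, hbd⟩ A B D
  set M : ℝ := 3 * (519168 + 7098 * C₂ ^ 2 + 676 * C₁ + 1) with hM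
  have hMpos : 0 < M := by positivity
  obtain ⟨X1, hX1⟩ := log_pow_le M (4 * B + 2 * D + A + 2) (1 / 50) (by norm_num)
  obtain ⟨X2, hX2⟩ := log_ge (M + 1)
  refine ⟨4 * B + A + 3, max (max X1 X2) 1, ?_⟩
  intro B1 hB1 X hX q _ χ i e W c hq hi he1 he2 hW1 hW2
  have hXX1 : X1 ≤ X := le_trans (le_trans (le_max_left _ _) (le_max_left _ _)) hX
  have hXX2 : X2 ≤ X := le_trans (le_trans (le_max_right _ _) (le_max_left _ _)) hX
  have hXX3 : 1 ≤ X := le_trans (le_max_right _ _) hX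
  have hbig := hX1 X hXX1
  have hLM := hX2 X hXX2
  obtain ⟨x, hx⟩ : ∃ x : ℝ, x = (X : ℝ) := ⟨_, rfl⟩
  obtain ⟨L, hL⟩ : ∃ L : ℝ, L = Real.log x := ⟨_, rfl⟩
  rw [← hx] at hbig hLM hq he1 hW2 ⊢
  rw [← hL] at hbig hLM hq ⊢
  have hx1 : 1 ≤ x := by rw [hx]; exact_mod_cast hXX3
  have hx0 : 0 < x := by linarith
  have hL1 : 1 ≤ L := by linarith
  have hL0 : 0 < L := by linarith
  have hW0 : 0 < W := by linarith
  -- the size of e
  have heL : (1 : ℝ) + e ≤ 13 * L := by
    have h1 : ((2 : ℝ) ^ e) ≤ 1024 * x := by rw [hx]; exact_mod_cast he2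
    have h2 := Real.log_le_log (by positivity) h1
    rw [Real.log_pow, Real.log_mul (by norm_num) hx0.ne', ← hL,
      show (1024 : ℝ) = 2 ^ 10 by norm_num, Real.log_pow] at h2
    have h3 := Real.log_two_gt_d9
    push_cast at h2
    have h4 : ((e : ℝ) - 10) * Real.log 2 ≤ L := by linarith
    by_cases h5 : (e : ℝ) ≤ 10
    · linarith
    · push Not at h5
      have h6 : ((e : ℝ) - 10) * (1 / 2) ≤ ((e : ℝ) - 10) * Real.log 2 :=
        mul_le_mul_of_nonneg_left (by linarith) (by linarith)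
      linarith
  have he0 : (0 : ℝ) ≤ 1 + e := by positivity
  have hq0 : (0 : ℝ) ≤ q := by positivity
  set N : ℝ := 2 ^ e with hN
  have hN0 : 0 < N := by positivity
  have hNinv : 1 / N ≤ x ^ (-(29 / 100) : ℝ) := by
    rw [Real.rpow_neg hx0.le, ← one_div]
    exact one_div_le_one_div_of_le (by positivity) he1
  have hNinv0 : 0 ≤ 1 / N := by positivity
  set δ : ℝ := x ^ (-(1 / 50) : ℝ) with hδ
  have hδ0 : 0 < δ := by positivity
  have hpw : ∀ u v : ℝ, u + v ≤ -(1 / 50) → x ^ u * x ^ v ≤ δ := by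
    intro u v huv
    rw [← Real.rpow_add hx0]
    exact Real.rpow_le_rpow_of_exponent_le hx1 huv
  -- the main smallness
  have hsmall : ∀ (K : ℝ) (m : ℕ), 0 ≤ K → 3 * K ≤ M → m ≤ 4 * B + 2 * D + 2 →
      K * L ^ m * δ ≤ 1 / (3 * L ^ A) := by
    intro K m hK0 hKM hm
    have h1 : M * L ^ (4 * B + 2 * D + A + 2) * δ ≤ 1 := by
      have h2 := mul_le_mul_of_nonneg_right hbig hδ0.le
      rwa [hδ, ← Real.rpow_add hx0, show (1 / 50 + -(1 / 50) : ℝ) = 0 by norm_num,
        Real.rpow_zero] at h2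
    rw [le_div_iff₀ (by positivity)]
    have h3 : L ^ m * L ^ A ≤ L ^ (4 * B + 2 * D + A + 2) := by
      rw [← pow_add]
      exact pow_le_pow_right₀ hL1 (by omega)
    calc K * L ^ m * δ * (3 * L ^ A) = (3 * K) * (L ^ m * L ^ A) * δ := by ring
      _ ≤ M * (L ^ (4 * B + 2 * D + A + 2)) * δ := by
          apply mul_le_mul_of_nonneg_right _ hδ0.le
          exact mul_le_mul hKM h3 (by positivity) hMpos.le
      _ ≤ 1 := h1
  have hthird : 0 ≤ 1 / (3 * L ^ A) := by positivity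
  have hsum3 : 1 / (3 * L ^ A) + 1 / (3 * L ^ A) + 1 / (3 * L ^ A) = 1 / L ^ A := by
    field_simp; norm_num
  set T : ℝ := √x * L ^ D with hT
  have hsx : √x = x ^ (1 / 2 : ℝ) := Real.sqrt_eq_rpow x
  have hLD : 1 ≤ L ^ D := one_le_pow₀ hL1
  have hT0 : 0 < T := by positivity
  have hT2 : T ^ 2 = x * L ^ (2 * D) := by
    rw [hT, mul_pow, Real.sq_sqrt hx0.le, ← pow_mul, mul_comm D 2]
  set Y : ℝ := x ^ (9 / 25 : ℝ) with hY
  have hY0 : 0 < Y := by positivity
  have hYT : Y ≤ T := by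
    have h1 : Y ≤ √x := by
      rw [hsx]
      exact Real.rpow_le_rpow_of_exponent_le hx1 (by norm_num)
    have h2 : √x ≤ T := le_mul_of_one_le_right (Real.sqrt_nonneg _) hLD
    linarith
  have hfb := hbd q χ i e
  have hF0 : ∀ s, 0 ≤ rg (L ^ B1) T (bk χ i e) s ^ 2 * Real.exp (-((s - c) / W) ^ 2) := by
    intro s; positivity
  have hrg : ∀ s, rg (L ^ B1) T (bk χ i e) s ^ 2 ≤ ‖bk χ i e s‖ ^ 2 := by
    intro s
    unfold rg
    split_ifs with h
    · exact le_refl _
    · rw [zero_pow two_ne_zero]; positivity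
  by_cases hc : Y < |c| ∧ |c| ≤ 2 * T
  · -- case (ii)
    obtain ⟨hc1, hc2⟩ := hc
    have hY1 : 1 ≤ Y := Real.one_le_rpow hx1 (by norm_num)
    have hc0 : 0 < |c| := by linarith
    obtain ⟨hgi, -⟩ := gauss_int c W hW0
    have hint : Integrable (fun s : ℝ => ‖bk χ i e s‖ ^ 2 * Real.exp (-((s - c) / W) ^ 2)) := by
      refine Integrable.mono' (hgi.const_mul ((4 * (1 + e)) ^ 2)) ?_ ?_
      · have h1 : Continuous fun s : ℝ => ‖bk χ i e s‖ ^ 2 * Real.exp (-((s - c) / W) ^ 2) := by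
          have := hcont q χ i e
          fun_prop
        exact h1.aestronglyMeasurable
      · refine Filter.Eventually.of_forall fun s => ?_
        rw [Real.norm_of_nonneg (by positivity)]
        apply mul_le_mul_of_nonneg_right _ (Real.exp_pos _).le
        exact pow_le_pow_left₀ (norm_nonneg _) (hfb s) 2
    have h1 : ∫ s : ℝ, rg (L ^ B1) T (bk χ i e) s ^ 2 * Real.exp (-((s - c) / W) ^ 2) ≤
        ∫ s : ℝ, ‖bk χ i e s‖ ^ 2 * Real.exp (-((s - c) / W) ^ 2) := by
      refine integral_mono_of_nonneg (Filter.Eventually.of_forall hF0) hint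
        (Filter.Eventually.of_forall fun s => ?_)
      exact mul_le_mul_of_nonneg_right (hrg s) (Real.exp_pos _).le
    refine h1.trans ((hS q χ i e c W hi hW1 (by linarith)).trans ?_)
    rw [← hN]
    have t1 : W / N ≤ δ := by
      calc W / N = W * (1 / N) := by ring
        _ ≤ x ^ (1 / 5 : ℝ) * x ^ (-(29 / 100) : ℝ) :=
            mul_le_mul hW2 hNinv hNinv0 (by positivity)
        _ ≤ δ := hpw _ _ (by norm_num)
    have t2 : √|c| / (√W * N) ≤ 2 * L ^ D * δ := by
      have h2 : √|c| ≤ 2 * L ^ D * x ^ (1 / 4 : ℝ) := by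
        rw [Real.sqrt_le_left (by positivity)]
        have h3 : (x ^ (1 / 4 : ℝ)) ^ 2 = √x := by
          rw [hsx, ← Real.rpow_natCast, ← Real.rpow_mul hx0.le]
          norm_num
        calc |c| ≤ 2 * T := hc2
          _ = 2 * L ^ D * √x := by rw [hT]; ring
          _ ≤ 4 * (L ^ D) ^ 2 * √x := by
              apply mul_le_mul_of_nonneg_right _ (Real.sqrt_nonneg _)
              have h5 : L ^ D * 1 ≤ L ^ D * L ^ D :=
                mul_le_mul_of_nonneg_left hLD (by positivity)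
              have h6 : 4 * (L ^ D) ^ 2 = 4 * (L ^ D * L ^ D) := by ring
              rw [h6]
              linarith
          _ = (2 * L ^ D * x ^ (1 / 4 : ℝ)) ^ 2 := by rw [mul_pow, h3]; ring
      have h4 : 1 ≤ √W := Real.one_le_sqrt.2 hW1
      calc √|c| / (√W * N) ≤ √|c| / N := by
            apply div_le_div_of_nonneg_left (Real.sqrt_nonneg _) hN0
            exact le_mul_of_one_le_left hN0.le h4
        _ = √|c| * (1 / N) := by ring
        _ ≤ (2 * L ^ D * x ^ (1 / 4 : ℝ)) * x ^ (-(29 / 100) : ℝ) :=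
            mul_le_mul h2 hNinv hNinv0 (by positivity)
        _ = 2 * L ^ D * (x ^ (1 / 4 : ℝ) * x ^ (-(29 / 100) : ℝ)) := by ring
        _ ≤ 2 * L ^ D * δ :=
            mul_le_mul_of_nonneg_left (hpw _ _ (by norm_num)) (by positivity)
    have t3 : √(W / |c|) ≤ δ := by
      rw [Real.sqrt_le_left hδ0.le]
      have h3 : δ ^ 2 = x ^ (-(1 / 25) : ℝ) := by
        rw [hδ, ← Real.rpow_natCast, ← Real.rpow_mul hx0.le]
        norm_num
      rw [h3, div_le_iff₀ hc0]
      calc W ≤ x ^ (1 / 5 : ℝ) := hW2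
        _ ≤ x ^ (-(1 / 25) : ℝ) * Y := by
            rw [hY, ← Real.rpow_add hx0]
            exact Real.rpow_le_rpow_of_exponent_le hx1 (by norm_num)
        _ ≤ x ^ (-(1 / 25) : ℝ) * |c| := mul_le_mul_of_nonneg_left hc1.le (by positivity)
    have t4 : W / N + √|c| / (√W * N) + √(W / |c|) ≤ 4 * L ^ D * δ := by
      have : δ ≤ L ^ D * δ := le_mul_of_one_le_left hδ0.le hLD
      linarith
    have h5 : C₁ * q ^ 2 * (1 + e) ^ 2 ≤ 169 * C₁ * L ^ (2 * B + 2) := by
      have h6 : (q : ℝ) ^ 2 ≤ L ^ (2 * B) := by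
        rw [mul_comm 2 B, pow_mul]
        exact pow_le_pow_left₀ hq0 hq 2
      have h7 : (1 + (e : ℝ)) ^ 2 ≤ (13 * L) ^ 2 := pow_le_pow_left₀ he0 heL 2
      calc C₁ * (q : ℝ) ^ 2 * (1 + e) ^ 2 ≤ C₁ * L ^ (2 * B) * (13 * L) ^ 2 := by
            apply mul_le_mul _ h7 (by positivity) (by positivity)
            exact mul_le_mul_of_nonneg_left h6 hC₁.le
        _ = 169 * C₁ * L ^ (2 * B + 2) := by rw [pow_add]; ring
    have h8 : C₁ * q ^ 2 * (1 + e) ^ 2 * (W / N + √|c| / (√W * N) + √(W / |c|)) ≤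
        676 * C₁ * L ^ (2 * B + 2 + D) * δ := by
      calc C₁ * q ^ 2 * (1 + e) ^ 2 * (W / N + √|c| / (√W * N) + √(W / |c|))
          ≤ (169 * C₁ * L ^ (2 * B + 2)) * (4 * L ^ D * δ) :=
            mul_le_mul h5 t4 (by positivity) (by positivity)
        _ = 676 * C₁ * L ^ (2 * B + 2 + D) * δ := by rw [pow_add L (2 * B + 2) D]; ring
    refine h8.trans ?_
    have h9 := hsmall (676 * C₁) (2 * B + 2 + D) (by positivity)
      (by rw [hM]; linarith [sq_nonneg C₂]) (by omega)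
    linarith
  · -- cases (i), (iii)
    have hc' : |c| ≤ Y ∨ 2 * T < |c| := by
      rcases le_or_gt |c| Y with h | h
      · exact Or.inl h
      · right
        by_contra h2
        exact hc ⟨h, not_lt.1 h2⟩
    set a : ℝ := L ^ B1 with ha
    have ha1 : 1 ≤ a := one_le_pow₀ hL1
    set K : ℝ := 3 * C₂ ^ 2 * q ^ 4 * (1 + e) ^ 2 with hKdef
    have hK0 : 0 ≤ K := by positivity
    set y : ℝ := x ^ (8 / 25 : ℝ) with hy
    have hy0 : 0 < y := by positivity
    set α : ℝ := K * (2 / a ^ 2) + 16 * (1 + e) ^ 2 * Real.exp (-y) * (1 + T ^ 2) with hα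
    set β : ℝ := K * (1 / N + 2 * Y / N ^ 2) with hβ
    have hα0 : 0 ≤ α := by positivity
    have hβ0 : 0 ≤ β := by positivity
    have hpt : ∀ s, rg a T (bk χ i e) s ^ 2 * Real.exp (-((s - c) / W) ^ 2) ≤
        α * (1 + s ^ 2)⁻¹ + β * Real.exp (-((s - c) / W) ^ 2) := by
      intro s
      have hE0 := Real.exp_pos (-((s - c) / W) ^ 2)
      have hE1 : Real.exp (-((s - c) / W) ^ 2) ≤ 1 := by
        rw [Real.exp_le_one_iff]; exact neg_nonpos.2 (sq_nonneg _)
      have hinv0 : 0 < (1 + s ^ 2)⁻¹ := by positivity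
      by_cases hs : a ≤ |s| ∧ |s| ≤ T
      swap
      · have : rg a T (bk χ i e) s = 0 := by unfold rg; rw [if_neg hs]
        rw [this]
        have : 0 ≤ α * (1 + s ^ 2)⁻¹ + β * Real.exp (-((s - c) / W) ^ 2) := by positivity
        simpa using this
      have hrgs : rg a T (bk χ i e) s = ‖bk χ i e s‖ := by unfold rg; rw [if_pos hs]
      rw [hrgs]
      obtain ⟨hs1, hs2⟩ := hs
      have hsq : s ^ 2 = |s| ^ 2 := (sq_abs s).symm
      by_cases hfar : Y ≤ |s - c|
      · -- far from the centre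
        have h1 : Real.exp (-((s - c) / W) ^ 2) ≤ Real.exp (-y) := by
          apply Real.exp_le_exp.2
          apply neg_le_neg
          have h2 : x ^ (4 / 25 : ℝ) ≤ |s - c| / W := by
            rw [le_div_iff₀ hW0]
            calc x ^ (4 / 25 : ℝ) * W ≤ x ^ (4 / 25 : ℝ) * x ^ (1 / 5 : ℝ) :=
                  mul_le_mul_of_nonneg_left hW2 (by positivity)
              _ = Y := by rw [← Real.rpow_add hx0, hY]; norm_num
              _ ≤ |s - c| := hfar
          have h3 : (x ^ (4 / 25 : ℝ)) ^ 2 = y := by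
            rw [hy, ← Real.rpow_natCast, ← Real.rpow_mul hx0.le]
            norm_num
          rw [← h3, ← sq_abs ((s - c) / W), abs_div, abs_of_pos hW0]
          exact pow_le_pow_left₀ (by positivity) h2 2
        have h2 : ‖bk χ i e s‖ ^ 2 ≤ 16 * (1 + e) ^ 2 := by
          have := pow_le_pow_left₀ (norm_nonneg _) (hfb s) 2
          have h3 : (4 * (1 + (e : ℝ))) ^ 2 = 16 * (1 + e) ^ 2 := by ring
          linarith
        have h3 : 1 ≤ (1 + T ^ 2) * (1 + s ^ 2)⁻¹ := by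
          rw [← div_eq_mul_inv, one_le_div (by positivity), hsq]
          have := pow_le_pow_left₀ (abs_nonneg s) hs2 2
          linarith
        have h4 : ‖bk χ i e s‖ ^ 2 * Real.exp (-((s - c) / W) ^ 2) ≤
            16 * (1 + e) ^ 2 * Real.exp (-y) := mul_le_mul h2 h1 hE0.le (by positivity)
        have h5 : 16 * (1 + (e : ℝ)) ^ 2 * Real.exp (-y) ≤
            16 * (1 + e) ^ 2 * Real.exp (-y) * ((1 + T ^ 2) * (1 + s ^ 2)⁻¹) :=
          le_mul_of_one_le_right (by positivity) h3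
        have h6 : 0 ≤ K * (2 / a ^ 2) * (1 + s ^ 2)⁻¹ := by positivity
        have h7 : 0 ≤ β * Real.exp (-((s - c) / W) ^ 2) := by positivity
        have h8 : α * (1 + s ^ 2)⁻¹ = K * (2 / a ^ 2) * (1 + s ^ 2)⁻¹ +
            16 * (1 + (e : ℝ)) ^ 2 * Real.exp (-y) * ((1 + T ^ 2) * (1 + s ^ 2)⁻¹) := by
          rw [hα]; ring
        rw [h8]
        linarith
      · -- near the centre
        push Not at hfar
        have hs2Y : |s| ≤ 2 * Y := by
          rcases hc' with h | h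
          · have h1 : |s| ≤ |s - c| + |c| := by
              have := abs_add_le (s - c) c
              simpa using this
            linarith
          · exfalso
            have h1 : |c| ≤ |s - c| + |s| := by
              have := abs_add_le (c - s) s
              rw [abs_sub_comm c s] at this
              simpa using this
            linarith
        have hsabs1 : 1 ≤ |s| := ha1.trans hs1
        have h1 := hK q χ i e s hi hsabs1
        rw [← hN] at h1
        have hs20 : 0 < s ^ 2 := by rw [hsq]; positivity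
        have h2 : ‖bk χ i e s‖ ^ 2 ≤ K * (1 / s ^ 4 + 1 / N + |s| / N ^ 2) := by
          have h3 := pow_le_pow_left₀ (norm_nonneg _) h1 2
          have h4 : (1 / s ^ 2 + 1 / √N + √|s| / N) ^ 2 ≤
              3 * (1 / s ^ 4 + 1 / N + |s| / N ^ 2) := by
            have e1 : (1 / s ^ 2) ^ 2 = 1 / s ^ 4 := by rw [div_pow, ← pow_mul]; norm_num
            have e2 : (1 / √N) ^ 2 = 1 / N := by
              rw [div_pow, Real.sq_sqrt hN0.le]; norm_num
            have e3 : (√|s| / N) ^ 2 = |s| / N ^ 2 := by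
              rw [div_pow, Real.sq_sqrt (abs_nonneg s)]
            rw [← e1, ← e2, ← e3]
            exact sq3 _ _ _
          calc ‖bk χ i e s‖ ^ 2
              ≤ (C₂ * q ^ 2 * (1 + e) * (1 / s ^ 2 + 1 / √N + √|s| / N)) ^ 2 := h3
            _ = C₂ ^ 2 * q ^ 4 * (1 + e) ^ 2 * (1 / s ^ 2 + 1 / √N + √|s| / N) ^ 2 := by ring
            _ ≤ C₂ ^ 2 * q ^ 4 * (1 + e) ^ 2 * (3 * (1 / s ^ 4 + 1 / N + |s| / N ^ 2)) :=
                mul_le_mul_of_nonneg_left h4 (by positivity)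
            _ = K * (1 / s ^ 4 + 1 / N + |s| / N ^ 2) := by rw [hKdef]; ring
        have h5 : 1 / s ^ 4 ≤ 2 / a ^ 2 * (1 + s ^ 2)⁻¹ := by
          have h6 : a ^ 2 ≤ s ^ 2 := by
            rw [hsq]; exact pow_le_pow_left₀ (by linarith) hs1 2
          have h7 : 1 ≤ s ^ 2 := by
            have : (1 : ℝ) ≤ a ^ 2 := one_le_pow₀ ha1
            linarith
          have hs4 : 0 < s ^ 4 := by
            rw [show s ^ 4 = (s ^ 2) ^ 2 by ring]; positivity
          rw [← div_eq_mul_inv, div_div, div_le_div_iff₀ hs4 (by positivity)]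
          have h8 : a ^ 2 * (1 + s ^ 2) ≤ s ^ 2 * (2 * s ^ 2) :=
            mul_le_mul h6 (by linarith) (by positivity) (by positivity)
          have h8' : s ^ 2 * (2 * s ^ 2) = 2 * s ^ 4 := by ring
          linarith
        have h9 : |s| / N ^ 2 ≤ 2 * Y / N ^ 2 := by
          apply div_le_div_of_nonneg_right hs2Y (by positivity)
        have h10 : ‖bk χ i e s‖ ^ 2 ≤ K * (2 / a ^ 2 * (1 + s ^ 2)⁻¹) + β := by
          refine h2.trans ?_
          rw [hβ, ← mul_add]
          apply mul_le_mul_of_nonneg_left _ hK0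
          linarith
        have h11 : 0 ≤ K * (2 / a ^ 2 * (1 + s ^ 2)⁻¹) := by positivity
        have h12 := mul_le_mul_of_nonneg_right h10 hE0.le
        have h13 : K * (2 / a ^ 2 * (1 + s ^ 2)⁻¹) * Real.exp (-((s - c) / W) ^ 2) ≤
            K * (2 / a ^ 2 * (1 + s ^ 2)⁻¹) := mul_le_of_le_one_right h11 hE1
        have h14 : 0 ≤ 16 * (1 + (e : ℝ)) ^ 2 * Real.exp (-y) * (1 + T ^ 2) * (1 + s ^ 2)⁻¹ := by
          positivity
        have h15 : α * (1 + s ^ 2)⁻¹ = K * (2 / a ^ 2 * (1 + s ^ 2)⁻¹) +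
            16 * (1 + (e : ℝ)) ^ 2 * Real.exp (-y) * (1 + T ^ 2) * (1 + s ^ 2)⁻¹ := by
          rw [hα]; ring
        rw [h15]
        linarith
    refine (win _ c W α β hW0 hα0 hβ0 hF0 hpt).trans ?_
    -- numerical bounds
    have hKL : K ≤ 507 * C₂ ^ 2 * L ^ (4 * B + 2) := by
      have h6 : (q : ℝ) ^ 4 ≤ L ^ (4 * B) := by
        rw [mul_comm 4 B, pow_mul]
        exact pow_le_pow_left₀ hq0 hq 4
      have h7 : (1 + (e : ℝ)) ^ 2 ≤ (13 * L) ^ 2 := pow_le_pow_left₀ he0 heL 2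
      calc K = 3 * C₂ ^ 2 * (q : ℝ) ^ 4 * (1 + e) ^ 2 := hKdef
        _ ≤ 3 * C₂ ^ 2 * L ^ (4 * B) * (13 * L) ^ 2 := by
            apply mul_le_mul _ h7 (by positivity) (by positivity)
            exact mul_le_mul_of_nonneg_left h6 (by positivity)
        _ = 507 * C₂ ^ 2 * L ^ (4 * B + 2) := by rw [pow_add]; ring
    have b1 : 4 * (K * (2 / a ^ 2)) ≤ 1 / (3 * L ^ A) := by
      have h1 : L ^ (4 * B + 2) * L ^ (A + 1) ≤ a ^ 2 := by
        rw [← pow_add, ha, ← pow_mul]
        exact pow_le_pow_right₀ hL1 (by omega)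
      have h2 : 4056 * C₂ ^ 2 * 3 ≤ L := by
        have : M ≤ L := by linarith
        have h3 : 4056 * C₂ ^ 2 * 3 ≤ M := by rw [hM]; linarith [sq_nonneg C₂]
        linarith
      rw [le_div_iff₀ (by positivity)]
      have ha2 : 0 < a ^ 2 := by positivity
      have h4 : 4 * (K * (2 / a ^ 2)) * (3 * L ^ A) = 24 * K * L ^ A / a ^ 2 := by ring
      rw [h4, div_le_one ha2]
      calc 24 * K * L ^ A ≤ 24 * (507 * C₂ ^ 2 * L ^ (4 * B + 2)) * L ^ A := by
            apply mul_le_mul_of_nonneg_right _ (by positivity)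
            linarith
        _ = (4056 * C₂ ^ 2 * 3) * (L ^ (4 * B + 2) * L ^ A) := by ring
        _ ≤ L * (L ^ (4 * B + 2) * L ^ A) := mul_le_mul_of_nonneg_right h2 (by positivity)
        _ = L ^ (4 * B + 2) * L ^ (A + 1) := by rw [pow_succ L A]; ring
        _ ≤ a ^ 2 := h1
    have b2 : 4 * (16 * (1 + (e : ℝ)) ^ 2 * Real.exp (-y) * (1 + T ^ 2)) ≤ 1 / (3 * L ^ A) := by
      have h1 : Real.exp (-y) ≤ 24 / y ^ 4 := by
        rw [Real.exp_neg, ← one_div, div_le_div_iff₀ (Real.exp_pos _) (by positivity), one_mul]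
        have h2 := Real.pow_div_factorial_le_exp y hy0.le 4
        rw [div_le_iff₀ (by positivity)] at h2
        have h3 : ((Nat.factorial 4 : ℕ) : ℝ) = 24 := by norm_num [Nat.factorial]
        rw [h3] at h2
        linarith
      have h2 : y ^ 4 = x ^ (32 / 25 : ℝ) := by
        rw [hy, ← Real.rpow_natCast, ← Real.rpow_mul hx0.le]
        norm_num
      have h3 : 1 + T ^ 2 ≤ 2 * (x * L ^ (2 * D)) := by
        rw [hT2]
        have : 1 ≤ x * L ^ (2 * D) := by
          have h4 : 1 ≤ L ^ (2 * D) := one_le_pow₀ hL1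
          exact one_le_mul_of_one_le_of_one_le hx1 h4
        linarith
      have h7 : (1 + (e : ℝ)) ^ 2 ≤ (13 * L) ^ 2 := pow_le_pow_left₀ he0 heL 2
      have h8 : 4 * (16 * (1 + (e : ℝ)) ^ 2 * Real.exp (-y) * (1 + T ^ 2)) ≤
          519168 * L ^ (2 * D + 2) * (x / y ^ 4) := by
        calc 4 * (16 * (1 + (e : ℝ)) ^ 2 * Real.exp (-y) * (1 + T ^ 2))
            ≤ 4 * (16 * (13 * L) ^ 2 * (24 / y ^ 4) * (2 * (x * L ^ (2 * D)))) := by
              apply mul_le_mul_of_nonneg_left _ (by norm_num)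
              apply mul_le_mul _ h3 (by positivity) (by positivity)
              apply mul_le_mul _ h1 (Real.exp_pos _).le (by positivity)
              linarith
          _ = 519168 * L ^ (2 * D + 2) * (x / y ^ 4) := by rw [pow_add L (2 * D) 2]; ring
      have h9 : x / y ^ 4 ≤ δ := by
        rw [h2, div_eq_mul_inv, ← Real.rpow_neg hx0.le]
        nth_rewrite 1 [← Real.rpow_one x]
        exact hpw _ _ (by norm_num)
      refine h8.trans ?_
      calc 519168 * L ^ (2 * D + 2) * (x / y ^ 4) ≤ 519168 * L ^ (2 * D + 2) * δ :=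
            mul_le_mul_of_nonneg_left h9 (by positivity)
        _ ≤ 1 / (3 * L ^ A) := hsmall 519168 (2 * D + 2) (by norm_num)
            (by rw [hM]; linarith [sq_nonneg C₂]) (by omega)
    have b3 : 2 * W * β ≤ 1 / (3 * L ^ A) := by
      have h1 : W * (1 / N + 2 * Y / N ^ 2) ≤ 3 * δ := by
        have t1 : W * (1 / N) ≤ δ := by
          calc W * (1 / N) ≤ x ^ (1 / 5 : ℝ) * x ^ (-(29 / 100) : ℝ) :=
                mul_le_mul hW2 hNinv hNinv0 (by positivity)
            _ ≤ δ := hpw _ _ (by norm_num)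
        have t2 : W * (Y / N ^ 2) ≤ δ := by
          have h2 : (1 / N) ^ 2 ≤ x ^ (-(29 / 50) : ℝ) := by
            have h3 := pow_le_pow_left₀ hNinv0 hNinv 2
            rw [← Real.rpow_natCast (x ^ (-(29 / 100) : ℝ)), ← Real.rpow_mul hx0.le] at h3
            norm_num at h3 ⊢
            exact h3
          calc W * (Y / N ^ 2) = (W * Y) * (1 / N) ^ 2 := by ring
            _ ≤ (x ^ (1 / 5 : ℝ) * x ^ (9 / 25 : ℝ)) * x ^ (-(29 / 50) : ℝ) := by
                apply mul_le_mul _ h2 (by positivity) (by positivity)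
                exact mul_le_mul_of_nonneg_right hW2 hY0.le
            _ = x ^ (14 / 25 : ℝ) * x ^ (-(29 / 50) : ℝ) := by
                rw [← Real.rpow_add hx0]; norm_num
            _ ≤ δ := hpw _ _ (by norm_num)
        have t3 : W * (1 / N + 2 * Y / N ^ 2) = W * (1 / N) + 2 * (W * (Y / N ^ 2)) := by ring
        linarith
      have h2 : 2 * W * β ≤ 3042 * C₂ ^ 2 * L ^ (4 * B + 2) * δ := by
        calc 2 * W * β = 2 * K * (W * (1 / N + 2 * Y / N ^ 2)) := by rw [hβ]; ring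
          _ ≤ 2 * (507 * C₂ ^ 2 * L ^ (4 * B + 2)) * (3 * δ) := by
              apply mul_le_mul _ h1 (by positivity) (by positivity)
              linarith
          _ = 3042 * C₂ ^ 2 * L ^ (4 * B + 2) * δ := by ring
      refine h2.trans (hsmall (3042 * C₂ ^ 2) (4 * B + 2) (by positivity)
        (by rw [hM]; linarith [sq_nonneg C₂]) (by omega))
    have hαs : 4 * α = 4 * (K * (2 / a ^ 2)) +
        4 * (16 * (1 + (e : ℝ)) ^ 2 * Real.exp (-y) * (1 + T ^ 2)) := by rw [hα]; ring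
    rw [hαs, ← hsum3]
    linarith

end Pool.Agent.Helper26.GW
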